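import Pool.Agent.Lib.MP_8b575b_co.Ela.Spec

set_option autoImplicit false

namespace Pool.Agent.MP8bE

open Finset

open scoped Classical

theorem tCp : S_Cp := by
  intro K V _ _ _ _ k S D hk hV hS hCo hcomp
  obtain ⟨hfr, hint⟩ := hCo
  have hfd : FiniteDimensional K V := Module.finite_of_finrank_pos (by omega)
  have hfin : Finite V := Module.finite_of_finite K
  -- the two vectors
  obtain ⟨v₁, hv₁⟩ : ∃ v, v ∉ S := by
    by_contra h
    push Not at h
    have h1 : S = ⊤ := (Submodule.eq_top_iff').mpr h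
    rw [h1, finrank_top] at hS
    omega
  obtain ⟨v₂, hv₂⟩ : ∃ v, v ∉ S ⊔ Submodule.span K {v₁} := by
    by_contra h
    push Not at h
    have h1 : S ⊔ Submodule.span K {v₁} = ⊤ := (Submodule.eq_top_iff').mpr h
    have h2 := Submodule.finrank_add_le_finrank_add_finrank S (Submodule.span K {v₁})
    rw [h1, finrank_top] at h2
    have h3 := finrank_span_singleton (K := K) (v := v₁) (fun h0 => hv₁ (by rw [h0]; exact S.zero_mem))
    omega
  have hex : ∀ U ∈ D, ∃ f : S × S, v₁ + f.1 ∈ U ∧ v₂ + f.2 ∈ U := by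
    intro U hU
    have htop : U ⊔ S = ⊤ := by
      apply Submodule.eq_top_of_finrank_eq
      have h1 := Submodule.finrank_sup_add_finrank_inf_eq U S
      rw [hcomp U hU, finrank_bot] at h1
      have h2 := hfr U hU
      omega
    have h1 : ∀ v : V, ∃ s : S, v + s ∈ U := by
      intro v
      have hv : v ∈ U ⊔ S := by rw [htop]; exact Submodule.mem_top
      obtain ⟨y, hy, z, hz, rfl⟩ := Submodule.mem_sup.mp hv
      refine ⟨⟨-z, S.neg_mem hz⟩, ?_⟩
      change y + z + -z ∈ U
      rw [add_neg_cancel_right]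
      exact hy
    obtain ⟨s₁, hs₁⟩ := h1 v₁
    obtain ⟨s₂, hs₂⟩ := h1 v₂
    exact ⟨(s₁, s₂), hs₁, hs₂⟩
  choose! f hf using hex
  let _ : Fintype (S × S) := Fintype.ofFinite _
  have hcard : Fintype.card (S × S) = Fintype.card K ^ (2 * k) := by
    rw [Module.card_eq_pow_finrank (K := K) (V := S × S), Module.finrank_prod, hS, two_mul]
  rw [← hcard, ← Finset.card_univ]
  apply Finset.card_le_card_of_injOn f (fun _ _ => Finset.mem_coe.mpr (Finset.mem_univ _))
  intro U hU W hW hUW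
  by_contra hne
  have hU' : U ∈ D := hU
  have hW' : W ∈ D := hW
  have hle := hint U hU' W hW' hne
  obtain ⟨hU1, hU2⟩ := hf U hU'
  obtain ⟨hW1, hW2⟩ := hf W hW'
  rw [← hUW] at hW1 hW2
  obtain ⟨v, hv⟩ := finrank_le_one_iff.mp hle
  obtain ⟨c, hc⟩ := hv ⟨v₁ + (f U).1, hU1, hW1⟩
  obtain ⟨d, hd⟩ := hv ⟨v₂ + (f U).2, hU2, hW2⟩
  have hc' : c • (v : V) = v₁ + (f U).1 := congrArg Subtype.val hc
  have hd' : d • (v : V) = v₂ + (f U).2 := congrArg Subtype.val hd
  have hc0 : c ≠ 0 := by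
    rintro rfl
    rw [zero_smul] at hc'
    apply hv₁
    have h1 : v₁ = -((f U).1 : V) := eq_neg_of_add_eq_zero_left hc'.symm
    rw [h1]
    exact S.neg_mem (f U).1.2
  apply hv₂
  have h2 : v₂ = (d * c⁻¹) • (v₁ + (f U).1) - (f U).2 := by
    rw [← hc', smul_smul, mul_assoc, inv_mul_cancel₀ hc0, mul_one, hd', add_sub_cancel_right]
  rw [h2]
  apply Submodule.sub_mem
  · apply Submodule.smul_mem
    apply Submodule.add_mem
    · exact Submodule.mem_sup_right (Submodule.mem_span_singleton_self v₁)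
    · exact Submodule.mem_sup_left (f U).1.2
  · exact Submodule.mem_sup_left (f U).2.2

end Pool.Agent.MP8bE
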