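import Pool.Agent.Lib.MP_8b575b_co.Ela.Spec

set_option autoImplicit false

namespace Pool.Agent.MP8bE

open Finset

open scoped Classical

theorem tFin : S_Sta → S_Mix → S_Cp → S_Me → S_Fin := by
  intro hSta hMix hCp hMe K V _ _ _ _ k hk hV S hS T hT hbig D hfr hint hinv
  have hEl : El k S T D := ⟨hk, hV, hS, hT, hbig, ⟨hfr, hint⟩, hinv⟩
  have hfd : FiniteDimensional K V := Module.finite_of_finrank_pos (by omega)
  have hCo' : Co k (D.erase S) :=
    ⟨fun U hU => hfr U (Finset.mem_of_mem_erase hU),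
      fun U hU W hW => hint U (Finset.mem_of_mem_erase hU) W (Finset.mem_of_mem_erase hW)⟩
  have hle : (D.erase S).card ≤ Fintype.card K ^ (2 * k) := by
    by_cases h0 : ∃ U₀ ∈ D, U₀ ⊓ S = ⊥
    · obtain ⟨U₀, hU₀, h0⟩ := h0
      exact hCp K V k S _ (by omega) hV hS hCo' fun U hU =>
        hMix K V k S T D hEl U₀ hU₀ h0 U (Finset.mem_of_mem_erase hU) (Finset.ne_of_mem_erase hU)
    · push Not at h0
      refine hMe K V k S _ (by omega) hV hS hCo' fun U hU => ?_
      have h1 := hSta K V k S T D hEl U (Finset.mem_of_mem_erase hU) (Finset.ne_of_mem_erase hU)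
      have h2 : Module.finrank K ↥(U ⊓ S) ≠ 0 := by
        intro h
        exact h0 U (Finset.mem_of_mem_erase hU) (Submodule.finrank_eq_zero.mp h)
      omega
  have h1 := Finset.pred_card_le_card_erase (s := D) (a := S)
  omega

end Pool.Agent.MP8bE
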