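import Pool.Agent.Lib.MP_8b575b_co.Ela.Spec

set_option autoImplicit false

namespace Pool.Agent.MP8bE

open Finset

open scoped Classical

private theorem Me_card {K V : Type} [Field K] [Fintype K] [AddCommGroup V] [Module K V]
    [Fintype V] (U : Submodule K V) :
    (univ.filter fun x => x ∈ U).card = Fintype.card K ^ Module.finrank K U := by
  have hfd : Module.Finite K V := inferInstance
  rw [← Module.card_eq_pow_finrank (K := K) (V := U), ← Fintype.card_subtype]

private theorem Me_ind {K V : Type} [Field K] [AddCommGroup V] [Module K V]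
    [FiniteDimensional K V] (S W : Submodule K V) (h : Module.finrank K W ≤ 1) (s v : V)
    (hs : s ∈ W) (hv : v ∈ W) (hs0 : s ≠ 0) (hsS : s ∈ S) : v ∈ S := by
  obtain ⟨w, hw⟩ := finrank_le_one_iff.mp h
  obtain ⟨c, hc⟩ := hw ⟨s, hs⟩
  obtain ⟨d, hd⟩ := hw ⟨v, hv⟩
  have hc' : c • (w : V) = s := congrArg Subtype.val hc
  have hd' : d • (w : V) = v := congrArg Subtype.val hd
  have hc0 : c ≠ 0 := by
    rintro rfl
    rw [zero_smul] at hc'
    exact hs0 hc'.symm
  have h2 : v = (d * c⁻¹) • s := by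
    rw [← hc', smul_smul, mul_assoc, inv_mul_cancel₀ hc0, mul_one, hd']
  rw [h2]
  exact S.smul_mem _ hsS

private theorem Me_arith (q k r : ℕ) (hq : 2 ≤ q) (hk : 3 ≤ k)
    (h : r * (q ^ k - q) ≤ q ^ (2 * k) - q ^ k) : r ≤ q ^ k + q - 1 := by
  by_contra hcon
  have hr : q ^ k + q ≤ r := by omega
  have hqk : q ^ 3 ≤ q ^ k := Nat.pow_le_pow_right (by omega) hk
  have h2 : q ^ (2 * k) = q ^ k * q ^ k := by rw [two_mul, pow_add]
  have h1 : (q ^ k + q) * (q ^ k - q) ≤ q ^ (2 * k) - q ^ k :=
    (Nat.mul_le_mul_right _ hr).trans h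
  have hq3 : q ^ 3 = q * q * q := by ring
  have hqq : q * q * 2 ≤ q * q * q := Nat.mul_le_mul_left _ hq
  have hq2 : q * 2 ≤ q * q := Nat.mul_le_mul_left _ hq
  generalize q ^ k = y at *
  rw [h2] at h1
  obtain ⟨z, rfl⟩ : ∃ z, y = z + q := ⟨y - q, by omega⟩
  rw [Nat.add_sub_cancel] at h1
  have h5 : z + q ≤ (z + q) * (z + q) := Nat.le_mul_self _
  have h4 : (z + q + q) * z + (z + q) ≤ (z + q) * (z + q) := by omega
  nlinarith

private theorem Me_arith2 (q k N : ℕ) (hq : 2 ≤ q) (hk : 3 ≤ k)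
    (h : N * (q - 1) ≤ (q ^ k - 1) * (q ^ k + q - 1)) : N ≤ q ^ (2 * k) := by
  have h2 : q ^ (2 * k) = q ^ k * q ^ k := by rw [two_mul, pow_add]
  have hqk : q ≤ q ^ k := Nat.le_self_pow (by omega) _
  rw [h2]
  generalize q ^ k = y at *
  obtain ⟨z, rfl⟩ : ∃ z, q = z + 2 := ⟨q - 2, by omega⟩
  obtain ⟨x, rfl⟩ : ∃ x, y = x + 1 := ⟨y - 1, by omega⟩
  have e1 : z + 2 - 1 = z + 1 := by omega
  have e2 : x + 1 + (z + 2) - 1 = x + z + 2 := by omega
  rw [Nat.add_sub_cancel, e1, e2] at h
  by_contra hcon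
  have h3 : (x + 1) * (x + 1) + 1 ≤ N := by omega
  have h4 := Nat.mul_le_mul_right (z + 1) h3
  have h5 : ((x + 1) * (x + 1) + 1) * (z + 1) =
      x * (x + z + 2) + (x * x * z + x * z + 2 * z + 2) := by ring
  rw [h5] at h4
  omega

theorem tMe : S_Me := by
  intro K V _ _ _ _ k S D hk hV hS hCo hone
  obtain ⟨hfr, hint⟩ := hCo
  have hfd : FiniteDimensional K V := Module.finite_of_finrank_pos (by omega)
  have hfin : Finite V := Module.finite_of_finite K
  let _ : Fintype V := Fintype.ofFinite V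
  have hq2 : 2 ≤ Fintype.card K := Fintype.one_lt_card
  have hcV : Fintype.card V = Fintype.card K ^ (2 * k) := by
    rw [Module.card_eq_pow_finrank (K := K) (V := V), hV]
  let E : Submodule K V → Finset V := fun U => univ.filter fun x => x ∈ U
  have hE : ∀ (U : Submodule K V) (x : V), x ∈ E U ↔ x ∈ U := by
    intro U x
    simp [E]
  -- the number through a point
  have hpt : ∀ s ∈ S, s ≠ 0 → (D.filter fun U => s ∈ U).card ≤
      Fintype.card K ^ k + Fintype.card K - 1 := by
    intro s hs hs0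
    apply Me_arith _ k _ hq2 hk
    have h1 : ∀ U ∈ D.filter (fun U => s ∈ U), (E U \ E S).card =
        Fintype.card K ^ k - Fintype.card K := by
      intro U hU
      have hU' := (Finset.mem_filter.mp hU).1
      have h2 : E U \ E S = E U \ E (U ⊓ S) := by
        ext x
        simp only [Finset.mem_sdiff, hE, Submodule.mem_inf]
        tauto
      rw [h2, Finset.card_sdiff_of_subset, Me_card, Me_card, hfr U hU', hone U hU', pow_one]
      intro x hx
      rw [hE] at hx ⊢
      exact hx.1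
    have h2 : ((D.filter (fun U => s ∈ U)).biUnion fun U => E U \ E S).card =
        (D.filter fun U => s ∈ U).card * (Fintype.card K ^ k - Fintype.card K) := by
      rw [Finset.card_biUnion]
      · rw [Finset.sum_const_nat h1]
      · intro U hU W hW hUW
        have hU' := Finset.mem_filter.mp hU
        have hW' := Finset.mem_filter.mp hW
        refine Finset.disjoint_left.mpr ?_
        intro x hx hx'
        simp only [Finset.mem_sdiff, hE] at hx hx'
        exact hx.2 (Me_ind S _ (hint U hU'.1 W hW'.1 hUW) s x ⟨hU'.2, hW'.2⟩ ⟨hx.1, hx'.1⟩ hs0 hs)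
    rw [← h2]
    have h3 : ((univ : Finset V) \ E S).card = Fintype.card K ^ (2 * k) - Fintype.card K ^ k := by
      rw [Finset.card_sdiff_of_subset (Finset.subset_univ _), Finset.card_univ, hcV, Me_card, hS]
    rw [← h3]
    apply Finset.card_le_card
    intro x hx
    obtain ⟨U, _, hxU⟩ := Finset.mem_biUnion.mp hx
    exact Finset.mem_sdiff.mpr ⟨Finset.mem_univ _, (Finset.mem_sdiff.mp hxU).2⟩
  -- double counting
  have h1 : ∑ U ∈ D, ((E (U ⊓ S)).erase 0).card = ∑ x ∈ (E S).erase 0,
      (D.filter fun U => x ∈ U).card := by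
    have h2 : ∀ U ∈ D, ((E (U ⊓ S)).erase 0).card = ∑ x ∈ (E S).erase 0,
        if x ∈ U then 1 else 0 := by
      intro U _
      rw [Finset.card_eq_sum_ones, ← Finset.sum_filter]
      refine Finset.sum_congr ?_ fun _ _ => rfl
      ext x
      simp only [Finset.mem_erase, Finset.mem_filter, hE, Submodule.mem_inf]
      tauto
    have h3 : ∀ x ∈ (E S).erase 0, (D.filter fun U => x ∈ U).card =
        ∑ U ∈ D, if x ∈ U then 1 else 0 := by
      intro x _
      rw [Finset.card_eq_sum_ones, Finset.sum_filter]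
    rw [Finset.sum_congr rfl h2, Finset.sum_congr rfl h3, Finset.sum_comm]
  have h4 : ∑ U ∈ D, ((E (U ⊓ S)).erase 0).card = D.card * (Fintype.card K - 1) := by
    rw [Finset.sum_const_nat]
    intro U hU
    rw [Finset.card_erase_of_mem ((hE _ _).mpr (Submodule.zero_mem _)), Me_card, hone U hU, pow_one]
  have h5 : ∑ x ∈ (E S).erase 0, (D.filter fun U => x ∈ U).card ≤
      ((E S).erase 0).card * (Fintype.card K ^ k + Fintype.card K - 1) := by
    rw [← smul_eq_mul]
    apply Finset.sum_le_card_nsmul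
    intro x hx
    exact hpt x ((hE _ _).mp (Finset.mem_of_mem_erase hx)) (Finset.ne_of_mem_erase hx)
  have h6 : ((E S).erase 0).card = Fintype.card K ^ k - 1 := by
    rw [Finset.card_erase_of_mem ((hE _ _).mpr (Submodule.zero_mem _)), Me_card, hS]
  rw [← h1, h4, h6] at h5
  exact Me_arith2 _ k _ hq2 hk h5

end Pool.Agent.MP8bE
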