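import Pool.Agent.Lib.MP_8b575b_co.Ela.Spec

set_option autoImplicit false

namespace Pool.Agent.MP8bE

open Finset

open scoped Classical

/-- There is an element of the group moving `u` by a nonzero vector of a line of `S`. -/
private theorem mix_exists {K V : Type} [Field K] [Fintype K] [AddCommGroup V] [Module K V]
    [FiniteDimensional K V] (k : ℕ) (hk : 1 ≤ k) (S P : Submodule K V)
    (T : AddSubgroup (V →ₗ[K] V)) (hS : Module.finrank K S = k)
    (hPS : P ≤ S) (hP : Module.finrank K P = 1) (u : V)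
    (hT : ∀ τ ∈ T, ∀ v, τ v ∈ S)
    (hu : Fintype.card K ^ (k - 1) < {w | ∃ τ ∈ T, τ u = w}.ncard) :
    ∃ τ ∈ T, τ u ≠ 0 ∧ τ u ∈ P := by
  classical
  have : Finite V := Module.finite_of_finite K
  have : Fintype V := Fintype.ofFinite V
  set A : AddSubgroup V := T.map ((LinearMap.applyₗ (R := K) (M₂ := V) u).toAddMonoidHom) with hA
  have hAmem : ∀ w, w ∈ A ↔ ∃ τ ∈ T, τ u = w := by
    intro w
    rw [hA, AddSubgroup.mem_map]
    rfl
  have hAset : {w | ∃ τ ∈ T, τ u = w} = (A : Set V) := by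
    ext w
    exact (hAmem w).symm
  have hAS : ∀ w ∈ A, w ∈ S := by
    intro w hw
    obtain ⟨τ, hτ, rfl⟩ := (hAmem w).1 hw
    exact hT τ hτ u
  rw [hAset] at hu
  have hcA : Fintype.card K ^ (k - 1) < Fintype.card A := by
    rw [← Nat.card_eq_fintype_card (α := A)]
    exact hu
  have hcS : Fintype.card S = Fintype.card K ^ k := by
    rw [Module.card_eq_pow_finrank (K := K) (V := S), hS]
  have hcP : Fintype.card P = Fintype.card K := by
    rw [Module.card_eq_pow_finrank (K := K) (V := P), hP, pow_one]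
  let f : A × P → S := fun x => ⟨(x.1 : V) + (x.2 : V),
    S.add_mem (hAS _ x.1.2) (hPS x.2.2)⟩
  have hlt : Fintype.card S < Fintype.card (A × P) := by
    rw [Fintype.card_prod, hcS, hcP]
    calc Fintype.card K ^ k = Fintype.card K ^ (k - 1) * Fintype.card K := by
          rw [← pow_succ]; congr 1; omega
      _ < Fintype.card A * Fintype.card K :=
          Nat.mul_lt_mul_of_pos_right hcA Fintype.card_pos
  obtain ⟨x, y, hxy, hf⟩ := Fintype.exists_ne_map_eq_of_card_lt f hlt
  have hf' : (x.1 : V) + (x.2 : V) = (y.1 : V) + (y.2 : V) := congrArg Subtype.val hf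
  have hd : (x.1 : V) - (y.1 : V) = (y.2 : V) - (x.2 : V) := by
    rw [sub_eq_sub_iff_add_eq_add, hf', add_comm]
  have hm : (x.1 : V) - (y.1 : V) ∈ A := A.sub_mem x.1.2 y.1.2
  obtain ⟨τ, hτ, hτu⟩ := (hAmem _).1 hm
  refine ⟨τ, hτ, ?_, ?_⟩
  · rw [hτu]
    intro h0
    apply hxy
    have e1 : x.1 = y.1 := Subtype.ext (sub_eq_zero.1 h0)
    have e2 : x.2 = y.2 := by
      rw [h0] at hd
      exact Subtype.ext (sub_eq_zero.1 hd.symm).symm
    exact Prod.ext e1 e2
  · rw [hτu, hd]
    exact P.sub_mem y.2.2 x.2.2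

theorem tMix (hSta : S_Sta) : S_Mix := by
  classical
  intro K V _ _ _ _ k S T D hEl U₀ hU₀ h0 U hU hUS
  have hSta' := hSta K V k S T D hEl U hU hUS
  obtain ⟨hk, hV, hS, hT, hTv, hCo, hInv⟩ := hEl
  by_contra hne
  have : FiniteDimensional K V := FiniteDimensional.of_finrank_pos (by omega)
  have hU1 : Module.finrank K U = k := hCo.1 U hU
  have hU01 : Module.finrank K U₀ = k := hCo.1 U₀ hU₀
  have h1 : Module.finrank K ↥(U ⊓ S) = 1 := by
    refine le_antisymm hSta' ?_
    exact Submodule.one_le_finrank_iff.2 hne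
  -- a vector of `U` outside `S`
  have hnle : ¬ U ≤ S := by
    intro hle
    exact hUS (Submodule.eq_of_le_of_finrank_eq hle (by rw [hU1, hS]))
  obtain ⟨u, huU, huS⟩ := SetLike.not_le_iff_exists.1 hnle
  obtain ⟨τ, hτ, hτ0, hτP⟩ := mix_exists k (by omega) S (U ⊓ S) T hS inf_le_right h1 u
    (fun σ hσ v => (hT σ hσ).2 v) (hTv u huS)
  have hmem : ∀ (W : Submodule K V) (w : V), w ∈ W →
      w + τ w ∈ W.map (LinearMap.id + τ) := by
    intro W w hw
    exact Submodule.mem_map.2 ⟨w, hw, by simp⟩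
  -- `1 + τ` fixes `U`
  have hfix : U.map (LinearMap.id + τ) = U := by
    by_contra hneq
    have hle1 := hCo.2 _ (hInv τ hτ U hU) U hU hneq
    have hlt : U ⊓ S < U.map (LinearMap.id + τ) ⊓ U := by
      refine lt_of_le_of_ne ?_ ?_
      · intro s hs
        refine ⟨?_, hs.1⟩
        have := hmem U s hs.1
        rwa [(hT τ hτ).1 s hs.2, add_zero] at this
      · intro heq
        have hin : u + τ u ∈ U.map (LinearMap.id + τ) ⊓ U :=
          ⟨hmem U u huU, U.add_mem huU hτP.1⟩
        rw [← heq] at hin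
        apply huS
        have := S.sub_mem hin.2 hτP.2
        simpa using this
    have := Submodule.finrank_lt_finrank_of_lt hlt
    omega
  have hτU : ∀ w ∈ U, τ w ∈ U ⊓ S := by
    intro w hw
    refine ⟨?_, (hT τ hτ).2 w⟩
    have h2 := hmem U w hw
    rw [hfix] at h2
    have := U.sub_mem h2 hw
    simpa using this
  -- the sum `U + S`
  have hsum : Module.finrank K ↥(U ⊔ S) = 2 * k - 1 := by
    have := Submodule.finrank_sup_add_finrank_inf_eq U S
    omega
  have hτW : ∀ w ∈ U ⊔ S, τ w ∈ U ⊓ S := by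
    intro w hw
    obtain ⟨a, ha, b, hb, rfl⟩ := Submodule.mem_sup.1 hw
    rw [map_add, (hT τ hτ).1 b hb, add_zero]
    exact hτU a ha
  have hker : 2 * k - 2 ≤ Module.finrank K ↥(LinearMap.ker τ) := by
    have hr := LinearMap.finrank_range_add_finrank_ker (τ.domRestrict (U ⊔ S))
    have hr1 : Module.finrank K ↥(LinearMap.range (τ.domRestrict (U ⊔ S))) ≤ 1 := by
      rw [← h1]
      apply Submodule.finrank_mono
      rintro _ ⟨w, rfl⟩
      exact hτW w.1 w.2
    have hk1 : Module.finrank K ↥(LinearMap.ker (τ.domRestrict (U ⊔ S)))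
        ≤ Module.finrank K ↥(LinearMap.ker τ) := by
      have hle : (LinearMap.ker (τ.domRestrict (U ⊔ S))).map (U ⊔ S).subtype
          ≤ LinearMap.ker τ := by
        rintro _ ⟨w, hw, rfl⟩
        exact hw
      calc Module.finrank K ↥(LinearMap.ker (τ.domRestrict (U ⊔ S)))
          = Module.finrank K ↥((LinearMap.ker (τ.domRestrict (U ⊔ S))).map (U ⊔ S).subtype) :=
            (Submodule.equivMapOfInjective _ (U ⊔ S).subtype_injective _).finrank_eq
        _ ≤ _ := Submodule.finrank_mono hle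
    omega
  have hint : 2 ≤ Module.finrank K ↥(U₀ ⊓ LinearMap.ker τ) := by
    have h3 := Submodule.finrank_sup_add_finrank_inf_eq U₀ (LinearMap.ker τ)
    have h4 : Module.finrank K ↥(U₀ ⊔ LinearMap.ker τ) ≤ 2 * k := by
      rw [← hV]; exact Submodule.finrank_le _
    omega
  have hfix0 : U₀.map (LinearMap.id + τ) = U₀ := by
    by_contra hneq
    have hle1 := hCo.2 _ (hInv τ hτ U₀ hU₀) U₀ hU₀ hneq
    have hle : U₀ ⊓ LinearMap.ker τ ≤ U₀.map (LinearMap.id + τ) ⊓ U₀ := by
      intro w hw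
      refine ⟨?_, hw.1⟩
      have := hmem U₀ w hw.1
      rwa [(LinearMap.mem_ker.1 hw.2), add_zero] at this
    have := Submodule.finrank_mono hle
    omega
  have hτU0 : ∀ w ∈ U₀, τ w = 0 := by
    intro w hw
    have h2 := hmem U₀ w hw
    rw [hfix0] at h2
    have h3 : τ w ∈ U₀ ⊓ S := by
      refine ⟨?_, (hT τ hτ).2 w⟩
      have := U₀.sub_mem h2 hw
      simpa using this
    rw [h0] at h3
    exact (Submodule.mem_bot K).1 h3
  have htop : U₀ ⊔ S = ⊤ := by
    apply Submodule.eq_top_of_finrank_eq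
    have := Submodule.finrank_sup_add_finrank_inf_eq U₀ S
    rw [h0, finrank_bot] at this
    omega
  apply hτ0
  have hu : u ∈ U₀ ⊔ S := by rw [htop]; trivial
  obtain ⟨a, ha, b, hb, hab⟩ := Submodule.mem_sup.1 hu
  rw [← hab, map_add, hτU0 a ha, (hT τ hτ).1 b hb, add_zero]

end Pool.Agent.MP8bE
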