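import Mathlib

/-!
# MP_8b575b_co: codes with a large group of elations

THEOREM. Let `q` be a prime power, `k ≥ 4`, `V` a space of dimension `2 k` over the field with `q` elements, `S` a
subspace of dimension `k`, `T` an additive group of linear maps `τ : V → S` vanishing on `S` such that for every `v ∉ S`
there are more than `q ^ (k - 1)` vectors `τ v` (`τ ∈ T`). Then a set of `k`-dimensional subspaces, pairwise meeting in
dimension at most one and invariant under all `1 + τ`, has at most `q ^ (2 k) + 1` elements.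

The proofs are complete in the docstrings; every module is independent (used statements are hypotheses):
file `Ela/<Name>.lean` (import this file only), namespace `Pool.Agent.MP8bE`, `theorem t<Name> : S_X → .. → S_<Name>`
(hypotheses in the order of the docstring), all other declarations `private`.
`K` is the field with `q = Fintype.card K` elements.
-/

set_option autoImplicit false

namespace Pool.Agent.MP8bE

open Finset

open scoped Classical

/-- `D` consists of `k`-dimensional subspaces pairwise meeting in dimension at most one. -/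
def Co {K V : Type} [Field K] [AddCommGroup V] [Module K V] (k : ℕ)
    (D : Finset (Submodule K V)) : Prop :=
  (∀ U ∈ D, Module.finrank K U = k) ∧
  ∀ U ∈ D, ∀ W ∈ D, U ≠ W → Module.finrank K ↥(U ⊓ W) ≤ 1

/-- The setting of the theorem. -/
def El {K V : Type} [Field K] [Fintype K] [AddCommGroup V] [Module K V] (k : ℕ)
    (S : Submodule K V) (T : AddSubgroup (V →ₗ[K] V)) (D : Finset (Submodule K V)) : Prop :=
  4 ≤ k ∧ Module.finrank K V = 2 * k ∧ Module.finrank K S = k ∧
  (∀ τ ∈ T, (∀ s ∈ S, τ s = 0) ∧ ∀ v, τ v ∈ S) ∧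
  (∀ v, v ∉ S → Fintype.card K ^ (k - 1) < {w | ∃ τ ∈ T, τ v = w}.ncard) ∧
  Co k D ∧ ∀ τ ∈ T, ∀ U ∈ D, U.map (LinearMap.id + τ) ∈ D

/-- **Sta** (80 lines). Large intersections with the axis.

Proof. Suppose `dim (U ∩ S) ≥ 2`, `U ≠ S`. For `τ ∈ T` the codeword `(1 + τ) U` contains `U ∩ S` (`τ = 0` on `S`), so it is equal
to `U`. Take `u ∈ U`, `u ∉ S` (`U ≠ S` have the same dimension). Then `τ u = (u + τ u) - u ∈ U ∩ S` for all `τ ∈ T`; `U ∩ S` has
dimension at most `k - 1`, so at most `q ^ (k - 1)` elements: contradiction to the size of `{τ u}`. -/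
def S_Sta : Prop :=
  ∀ (K V : Type) [Field K] [Fintype K] [AddCommGroup V] [Module K V] (k : ℕ)
    (S : Submodule K V) (T : AddSubgroup (V →ₗ[K] V)) (D : Finset (Submodule K V)),
    El k S T D → ∀ U ∈ D, U ≠ S → Module.finrank K ↥(U ⊓ S) ≤ 1

/-- **Mix** (120 lines, uses `S_Sta`). If one codeword is a complement of the axis, then all codewords except the
axis are.

Proof. Let `U₀ ∩ S = 0` and suppose `U ≠ S`, `U ∩ S ≠ 0`, so `U ∩ S = K s` with `s ≠ 0` (`S_Sta`). Take `u ∈ U`, `u ∉ S`. The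
group `T u = {τ u}` has more than `q ^ (k - 1)` elements, `K s` has `q` elements, and `S` has `q ^ k`, so the map
`T u × K s → S`, `(a, b) ↦ a + b`, is not injective, and there is `τ ∈ T` with `0 ≠ τ u ∈ K s` (differences of elements of
`T u` are in `T u`). `(1 + τ) U` contains `s` and `u + τ u`, and so does `U`; they are independent (`u + τ u ∉ S`), so
`(1 + τ) U = U` and `τ U ⊆ U ∩ S = K s`. So `τ` maps `U + S`, of dimension `2 k - 1`, to `K s`; hence the kernel of `τ` has
dimension at least `2 k - 2`, and `U₀ ∩ ker τ` has dimension at least `k - 2 ≥ 2`. It is contained in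
`(1 + τ) U₀ ∩ U₀`, so `(1 + τ) U₀ = U₀`, `τ U₀ ⊆ U₀ ∩ S = 0`. As `τ S = 0` and `U₀ + S = V`, `τ = 0`: contradiction to
`τ u ≠ 0`. -/
def S_Mix : Prop :=
  ∀ (K V : Type) [Field K] [Fintype K] [AddCommGroup V] [Module K V] (k : ℕ)
    (S : Submodule K V) (T : AddSubgroup (V →ₗ[K] V)) (D : Finset (Submodule K V)),
    El k S T D → ∀ U₀ ∈ D, U₀ ⊓ S = ⊥ → ∀ U ∈ D, U ≠ S → U ⊓ S = ⊥

/-- **Cp** (80 lines). Complements of the axis.

Proof. Let `v₁`, `v₂` be independent modulo `S` (`V / S` has dimension `k ≥ 2`). For `U ∈ D` (`U + S = V`) choose `s₁`, `s₂ ∈ S`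
with `v₁ + s₁ ∈ U`, `v₂ + s₂ ∈ U`. The map `U ↦ (s₁, s₂) ∈ S × S` is injective: if `U` and `W` have the same image, both
contain the independent vectors `v₁ + s₁`, `v₂ + s₂`, so `dim (U ∩ W) ≥ 2` and `U = W`. `S × S` has `q ^ (2 k)` elements. -/
def S_Cp : Prop :=
  ∀ (K V : Type) [Field K] [Fintype K] [AddCommGroup V] [Module K V] (k : ℕ)
    (S : Submodule K V) (D : Finset (Submodule K V)), 2 ≤ k → Module.finrank K V = 2 * k →
    Module.finrank K S = k → Co k D → (∀ U ∈ D, U ⊓ S = ⊥) →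
    D.card ≤ Fintype.card K ^ (2 * k)

/-- **Me** (150 lines). Codewords meeting the axis in dimension one.

Proof. For `s ∈ S`, `s ≠ 0`, let `D_s = {U ∈ D | s ∈ U}`. The sets `U \ S` (`U ∈ D_s`) are pairwise disjoint (a common element
`v` would give the two-dimensional space `⟨s, v⟩` in the intersection), each has `q ^ k - q` elements, and they are
contained in `V \ S`: `#D_s (q ^ k - q) ≤ q ^ (2 k) - q ^ k`, so `#D_s ≤ q ^ k + q - 1` (`(q ^ k + q) (q ^ k - q) =
q ^ (2 k) - q ^ 2 > q ^ (2 k) - q ^ k` as `k ≥ 3`). Every `U ∈ D` contains exactly `q - 1` nonzero elements of `S`, so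
`(q - 1) #D = ∑_s #D_s ≤ (q ^ k - 1) (q ^ k + q - 1) ≤ (q - 1) q ^ (2 k)` (for `q = 2` the middle is `4 ^ k - 1`; for `q ≥ 3` it
is `q ^ (2 k) + (q - 2) q ^ k - (q - 1)`). -/
def S_Me : Prop :=
  ∀ (K V : Type) [Field K] [Fintype K] [AddCommGroup V] [Module K V] (k : ℕ)
    (S : Submodule K V) (D : Finset (Submodule K V)), 3 ≤ k → Module.finrank K V = 2 * k →
    Module.finrank K S = k → Co k D → (∀ U ∈ D, Module.finrank K ↥(U ⊓ S) = 1) →
    D.card ≤ Fintype.card K ^ (2 * k)

/-- **Fin** (60 lines, uses `S_Sta`, `S_Mix`, `S_Cp`, `S_Me`).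

Proof. Let `D' = D \ {S}`. If some `U₀ ∈ D` is a complement of `S`, all `U ∈ D'` are (`S_Mix`) and `#D' ≤ q ^ (2 k)` by `S_Cp`.
Otherwise all `U ∈ D'` satisfy `dim (U ∩ S) = 1` (`S_Sta`), and `#D' ≤ q ^ (2 k)` by `S_Me`. -/
def S_Fin : Prop :=
  ∀ (K V : Type) [Field K] [Fintype K] [AddCommGroup V] [Module K V] (k : ℕ), 4 ≤ k →
    Module.finrank K V = 2 * k → ∀ S : Submodule K V, Module.finrank K S = k →
    ∀ T : AddSubgroup (V →ₗ[K] V), (∀ τ ∈ T, (∀ s ∈ S, τ s = 0) ∧ ∀ v, τ v ∈ S) →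
    (∀ v, v ∉ S → Fintype.card K ^ (k - 1) < {w | ∃ τ ∈ T, τ v = w}.ncard) →
    ∀ D : Finset (Submodule K V), (∀ U ∈ D, Module.finrank K U = k) →
    (∀ U ∈ D, ∀ W ∈ D, U ≠ W → Module.finrank K ↥(U ⊓ W) ≤ 1) →
    (∀ τ ∈ T, ∀ U ∈ D, U.map (LinearMap.id + τ) ∈ D) → D.card ≤ Fintype.card K ^ (2 * k) + 1

end Pool.Agent.MP8bE
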