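import Pool.Agent.Lib.MP_8b575b_co.Ela.Spec

set_option autoImplicit false

namespace Pool.Agent.MP8bE

open Finset

open scoped Classical

theorem tSta : S_Sta := by
  intro K V _ _ _ _ k S T D hEl U hU hUS
  obtain ⟨hk, hV, hS, hT, hbig, ⟨hfr, hint⟩, hinv⟩ := hEl
  have hfd : FiniteDimensional K V := Module.finite_of_finrank_pos (by omega)
  have hfin : Finite V := Module.finite_of_finite K
  by_contra hcon
  rw [not_le] at hcon
  obtain ⟨u, huU, huS⟩ : ∃ u ∈ U, u ∉ S := by
    by_contra h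
    push Not at h
    exact hUS (Submodule.eq_of_le_of_finrank_eq h (by rw [hfr U hU, hS]))
  have hfix : ∀ τ ∈ T, U.map (LinearMap.id + τ) = U := by
    intro τ hτ
    by_contra hne
    have h1 := hint _ (hinv τ hτ U hU) U hU hne
    have h2 : U ⊓ S ≤ U.map (LinearMap.id + τ) ⊓ U := by
      intro x hx
      refine ⟨⟨x, hx.1, ?_⟩, hx.1⟩
      rw [LinearMap.add_apply, LinearMap.id_apply, (hT τ hτ).1 x hx.2, add_zero]
    have h3 := Submodule.finrank_mono h2
    omega
  have hsub : {w | ∃ τ ∈ T, τ u = w} ⊆ ((U ⊓ S : Submodule K V) : Set V) := by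
    rintro w ⟨τ, hτ, rfl⟩
    refine ⟨?_, (hT τ hτ).2 u⟩
    have h1 : (LinearMap.id + τ : V →ₗ[K] V) u ∈ U.map (LinearMap.id + τ) := ⟨u, huU, rfl⟩
    rw [hfix τ hτ, LinearMap.add_apply, LinearMap.id_apply] at h1
    have h2 := U.sub_mem h1 huU
    rwa [add_sub_cancel_left] at h2
  have h1 := Set.ncard_le_ncard hsub (Set.toFinite _)
  have h2 : ((U ⊓ S : Submodule K V) : Set V).ncard =
      Fintype.card K ^ Module.finrank K ↥(U ⊓ S) := by
    rw [← Nat.card_coe_set_eq, ← Nat.card_eq_fintype_card]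
    exact Module.natCard_eq_pow_finrank (K := K) (V := ↥(U ⊓ S))
  have h3 : Module.finrank K ↥(U ⊓ S) < Module.finrank K U := by
    apply Submodule.finrank_lt_finrank_of_lt
    refine lt_of_le_of_ne inf_le_left ?_
    intro h
    rw [← h] at huU
    exact huS huU.2
  rw [hfr U hU] at h3
  have h4 : Fintype.card K ^ Module.finrank K ↥(U ⊓ S) ≤ Fintype.card K ^ (k - 1) :=
    Nat.pow_le_pow_right Fintype.card_pos (by omega)
  have h5 := hbig u huS
  omega

end Pool.Agent.MP8bE
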